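import Pool.Agent.H39.EAG.Targets

/-!
Target `T_BRG`: each graph is `gr ω` for `2 ^ n` elements `ω`.
-/

set_option autoImplicit false

open Finset Filter Topology Pool.Agent.H39.EAG

namespace Pool.Agent.H96.EAG.BRG

open Classical in
/-- The element of the sample space of a graph and its values on the diagonal. -/
noncomputable def back {n : ℕ} (G : SimpleGraph (Fin n)) (d : Fin n → Bool) : Om n :=
  Sym2.lift ⟨fun i j => if i = j then d i else decide (G.Adj i j), by
    intro i j
    by_cases h : i = j
    · subst h; rfl
    · have h' : ¬ j = i := fun e => h e.symm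
      simp only [h, h', if_false]
      rw [decide_eq_decide]
      exact G.adj_comm i j⟩

lemma back_mk {n : ℕ} (G : SimpleGraph (Fin n)) (d : Fin n → Bool) (i j : Fin n) [Decidable (G.Adj i j)] :
    back G d s(i, j) = if i = j then d i else decide (G.Adj i j) := by
  unfold back
  rw [Sym2.lift_mk]
  by_cases h : i = j
  · simp [h]
  · simp only [h, if_false]
    rw [decide_eq_decide]

/-- The sample space is the product of the graphs and the values on the diagonal. -/
noncomputable def eqv (n : ℕ) : Om n ≃ SimpleGraph (Fin n) × (Fin n → Bool) where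
  toFun ω := (gr ω, fun i => ω s(i, i))
  invFun p := back p.1 p.2
  left_inv := by
    intro ω
    classical
    funext z
    induction z using Sym2.ind with
    | _ i j =>
      change back (gr ω) (fun i => ω s(i, i)) s(i, j) = ω s(i, j)
      rw [back_mk]
      by_cases h : i = j
      · subst h; simp
      · simp only [h, if_false]
        have h1 : (gr ω).Adj i j ↔ ω s(i, j) = true := ⟨fun h2 => h2.2, fun h2 => ⟨h, h2⟩⟩
        by_cases h2 : ω s(i, j) = true
        · rw [h2, decide_eq_true_eq]
          exact h1.2 h2
        · rw [Bool.eq_false_of_not_eq_true h2, decide_eq_false_iff_not]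
          exact fun h3 => h2 (h1.1 h3)
  right_inv := by
    rintro ⟨G, d⟩
    classical
    refine Prod.ext ?_ ?_
    · ext i j
      change (i ≠ j ∧ back G d s(i, j) = true) ↔ G.Adj i j
      rw [back_mk]
      constructor
      · rintro ⟨h1, h2⟩
        simp only [h1, if_false, decide_eq_true_eq] at h2
        exact h2
      · intro h1
        have h2 : i ≠ j := G.ne_of_adj h1
        refine ⟨h2, ?_⟩
        simp only [h2, if_false, decide_eq_true_eq]
        exact h1
    · funext i
      change back G d s(i, i) = d i
      rw [back_mk]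
      simp

theorem pf_BRG : T_BRG := by
  intro n P
  classical
  have h1 : cnt (fun ω : Om n => P (gr ω)) = ∑ ω : Om n, if P (gr ω) then (1 : ℝ) else 0 := by
    unfold cnt
    rw [Finset.sum_boole]
  have h2 : (∑ ω : Om n, if P (gr ω) then (1 : ℝ) else 0) =
      ∑ p : SimpleGraph (Fin n) × (Fin n → Bool), if P p.1 then (1 : ℝ) else 0 :=
    Fintype.sum_equiv (eqv n) _ _ (fun ω => rfl)
  have h3 : ∀ G : SimpleGraph (Fin n), (∑ _d : Fin n → Bool, if P G then (1 : ℝ) else 0) =
      2 ^ n * (if P G then (1 : ℝ) else 0) := by
    intro G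
    rw [Finset.sum_const, Finset.card_univ, Fintype.card_fun, Fintype.card_bool, Fintype.card_fin,
      nsmul_eq_mul]
    push_cast
    rfl
  have h4 : (∑ p : SimpleGraph (Fin n) × (Fin n → Bool), if P p.1 then (1 : ℝ) else 0) =
      ∑ G : SimpleGraph (Fin n), ∑ _d : Fin n → Bool, if P G then (1 : ℝ) else 0 :=
    Fintype.sum_prod_type _
  rw [h1, h2, h4, Finset.sum_congr rfl (fun G _ => h3 G), ← Finset.mul_sum, Finset.sum_boole]
  rw [Nat.card_eq_fintype_card, Fintype.card_subtype]

end Pool.Agent.H96.EAG.BRG
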