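import Pool.Agent.H39.EAG.Targets

/-!
Target `T_FIB`: bounds on the fibres give a bound.
-/

set_option autoImplicit false

open Finset Filter Topology Pool.Agent.H39.EAG

namespace Pool.Agent.H96.EAG

open Classical in
lemma cnt_eq_sum {Ω : Type} [Fintype Ω] (P : Ω → Prop) :
    cnt P = ∑ x : Ω, if P x then (1 : ℝ) else 0 := by
  unfold cnt
  rw [Finset.sum_boole]

open Classical in
lemma card_fibre {I : Type} [Fintype I] [DecidableEq I] (F : Finset I) (f : I → Bool) :
    ((univ.filter fun ω : I → Bool => ∀ i, i ∉ F → f i = ω i).card : ℕ) = 2 ^ F.card := by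
  have h1 : (univ.filter fun ω : I → Bool => ∀ i, i ∉ F → f i = ω i) =
      Fintype.piFinset (fun i => if i ∈ F then (univ : Finset Bool) else {f i}) := by
    ext ω
    rw [Finset.mem_filter, Fintype.mem_piFinset]
    constructor
    · intro h i
      by_cases hi : i ∈ F
      · simp [hi]
      · simp only [hi, if_false, Finset.mem_singleton]
        exact (h.2 i hi).symm
    · intro h
      refine ⟨Finset.mem_univ _, fun i hi => ?_⟩
      have h2 := h i
      simp only [hi, if_false, Finset.mem_singleton] at h2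
      exact h2.symm
  rw [h1, Fintype.card_piFinset]
  have h2 : ∀ i, (if i ∈ F then (univ : Finset Bool) else {f i}).card = if i ∈ F then 2 else 1 := by
    intro i
    by_cases hi : i ∈ F
    · simp [hi]
    · simp [hi]
  simp_rw [h2]
  rw [Finset.prod_ite, Finset.prod_const_one, mul_one, Finset.prod_const, Finset.filter_mem_eq_inter,
    Finset.univ_inter]

theorem pf_FIB : T_FIB := by
  intro I _ _ F E ε h
  classical
  have key : ∑ ω : I → Bool, cnt (fun f : I → Bool => (∀ i, i ∉ F → f i = ω i) ∧ E f) =
      cnt E * 2 ^ F.card := by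
    simp_rw [cnt_eq_sum]
    rw [Finset.sum_comm, Finset.sum_mul]
    refine Finset.sum_congr rfl fun f _ => ?_
    by_cases hE : E f
    · simp only [hE, and_true, if_true, one_mul]
      rw [Finset.sum_boole, card_fibre F f]
      push_cast
      rfl
    · simp [hE]
  have h1 : ∑ ω : I → Bool, cnt (fun f : I → Bool => (∀ i, i ∉ F → f i = ω i) ∧ E f) ≤
      ∑ _ω : I → Bool, ε * 2 ^ F.card := Finset.sum_le_sum fun ω _ => h ω
  rw [key, Finset.sum_const, nsmul_eq_mul, Finset.card_univ, Fintype.card_fun,
    Fintype.card_bool] at h1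
  push_cast at h1
  have h2 : (0 : ℝ) < 2 ^ F.card := by positivity
  have h3 : cnt E * 2 ^ F.card ≤ (ε * 2 ^ Fintype.card I) * 2 ^ F.card := by
    calc cnt E * 2 ^ F.card ≤ 2 ^ Fintype.card I * (ε * 2 ^ F.card) := h1
      _ = (ε * 2 ^ Fintype.card I) * 2 ^ F.card := by ring
  exact le_of_mul_le_mul_right h3 h2

end Pool.Agent.H96.EAG
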